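import Pool.Agent.H95.ILV.Targets

/-!
# MP_de9001_an, row L2B: the upper bound for the weighted square mean
-/

set_option autoImplicit false

open MeasureTheory AddCircle Filter Topology Pool.Agent.H87.Synth Pool.Agent.H23.Synth
  Pool.Agent.H95.ILV

namespace Pool.Agent.H89.ILV

open scoped ComplexConjugate

lemma b_cont_FW (n : ℕ) : Continuous (FW n) := by
  have h : Continuous fun x : Circ => ∑ a ∈ Finset.range n, (fourier (a : ℤ) x : ℂ) :=
    continuous_finsetSum _ fun a _ => (fourier (a : ℤ)).continuous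
  unfold FW
  exact continuous_const.mul (h.norm.pow 2)

lemma b_int_cont {f : Circ → ℂ} (hf : Continuous f) :
    Integrable f (haarAddCircle : Measure Circ) :=
  hf.integrable_of_hasCompactSupport (HasCompactSupport.of_compactSpace f)

/-- the square of the modulus of an exponential sum -/
lemma es_sq {ι : Type} (s : Finset ι) (ν : ι → ℤ) (g : ι → ℂ) (x : Circ) :
    ((‖ES s ν g x‖ ^ 2 : ℝ) : ℂ) =
      ∑ a ∈ s, ∑ b ∈ s, g a * conj (g b) * (fourier (ν a - ν b) x : ℂ) := by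
  have h1 : ((‖ES s ν g x‖ ^ 2 : ℝ) : ℂ) = ES s ν g x * conj (ES s ν g x) := by
    rw [Complex.mul_conj']
    push_cast
    rfl
  rw [h1]
  unfold ES
  rw [map_sum, Finset.sum_mul_sum]
  refine Finset.sum_congr rfl fun a _ => Finset.sum_congr rfl fun b _ => ?_
  rw [map_mul, sub_eq_add_neg, fourier_add, fourier_neg]
  ring

/-- the weighted square mean of an exponential sum -/
lemma int_es_sq (hF : T_FWI) {ι : Type} (s : Finset ι) (ν : ι → ℤ) (g : ι → ℂ) (n : ℕ)
    (hn : 1 ≤ n) :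
    ((∫ x, FW n x * ‖ES s ν g x‖ ^ 2 ∂(haarAddCircle : Measure Circ) : ℝ) : ℂ) =
      ∑ a ∈ s, ∑ b ∈ s, g a * conj (g b) *
        ((max 0 (1 - |((ν a - ν b : ℤ) : ℝ)| / n) : ℝ) : ℂ) := by
  rw [← integral_complex_ofReal]
  have h1 : ∀ x : Circ, ((FW n x * ‖ES s ν g x‖ ^ 2 : ℝ) : ℂ) = ∑ a ∈ s, ∑ b ∈ s,
      g a * conj (g b) * (((FW n x : ℝ) : ℂ) * (fourier (ν a - ν b) x : ℂ)) := by
    intro x
    rw [Complex.ofReal_mul, es_sq, Finset.mul_sum]
    refine Finset.sum_congr rfl fun a _ => ?_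
    rw [Finset.mul_sum]
    refine Finset.sum_congr rfl fun b _ => ?_
    ring
  have hc : ∀ m : ℤ, Continuous fun x : Circ => ((FW n x : ℝ) : ℂ) * (fourier m x : ℂ) :=
    fun m => (Complex.continuous_ofReal.comp (b_cont_FW n)).mul (fourier m).continuous
  simp only [h1]
  rw [integral_finsetSum]
  · refine Finset.sum_congr rfl fun a _ => ?_
    rw [integral_finsetSum]
    · refine Finset.sum_congr rfl fun b _ => ?_
      rw [integral_const_mul, hF n (ν a - ν b) hn]
    · intro b _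
      exact (b_int_cont (hc _)).const_mul _
  · intro a _
    exact integrable_finsetSum _ fun b _ => (b_int_cont (hc _)).const_mul _

theorem pf_L2B (h : T_FWI) : T_L2B := by
  intro ι s ν g n hn hg
  have hn0 : (0 : ℝ) < n := by exact_mod_cast hn
  have e := int_es_sq h s ν g n hn
  set I : ℝ := ∫ x, FW n x * ‖ES s ν g x‖ ^ 2 ∂(haarAddCircle : Measure Circ) with hI
  have h1 : I ≤ ‖(I : ℂ)‖ := by
    rw [Complex.norm_real]
    exact le_abs_self I
  refine h1.trans ?_
  rw [e]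
  refine norm_sum_le_of_le _ fun a ha => norm_sum_le_of_le _ fun b hb => ?_
  rw [norm_mul, norm_mul, RCLike.norm_conj, Complex.norm_real, Real.norm_eq_abs,
    abs_of_nonneg (le_max_left _ _)]
  have h2 : ‖g a‖ * ‖g b‖ ≤ 1 := by
    calc ‖g a‖ * ‖g b‖ ≤ 1 * 1 := mul_le_mul (hg a ha) (hg b hb) (norm_nonneg _) zero_le_one
      _ = 1 := one_mul 1
  have h3 : 0 ≤ ‖g a‖ * ‖g b‖ := by positivity
  by_cases hc : |ν a - ν b| < (n : ℤ)
  · rw [if_pos hc]
    have h4 : max 0 (1 - |((ν a - ν b : ℤ) : ℝ)| / n) ≤ 1 :=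
      max_le zero_le_one (by
        have : 0 ≤ |((ν a - ν b : ℤ) : ℝ)| / n := by positivity
        linarith)
    calc ‖g a‖ * ‖g b‖ * max 0 (1 - |((ν a - ν b : ℤ) : ℝ)| / n) ≤ 1 * 1 :=
          mul_le_mul h2 h4 (le_max_left _ _) zero_le_one
      _ = 1 := one_mul 1
  · rw [if_neg hc]
    push Not at hc
    have h5 : (n : ℝ) ≤ |((ν a - ν b : ℤ) : ℝ)| := by
      rw [← Int.cast_abs]
      exact_mod_cast hc
    have h6 : max 0 (1 - |((ν a - ν b : ℤ) : ℝ)| / n) = 0 := by
      refine max_eq_left ?_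
      rw [sub_nonpos, le_div_iff₀ hn0, one_mul]
      exact h5
    rw [h6, mul_zero]

end Pool.Agent.H89.ILV
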