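import Pool.Agent.H95.ILV.Targets

/-!
GEO: the explicit levels satisfy the requirements (row GEO of the board ilv_modules,
MP_de9001_an).
-/

set_option autoImplicit false

open MeasureTheory AddCircle Filter Topology Pool.Agent.H87.Synth Pool.Agent.H23.Synth
  Pool.Agent.H95.ILV

namespace Pool.Agent.H89.ILV

theorem geo_exp (k : ℕ) : 6 * k + 3 ≤ 2 ^ (2 ^ (k + 1) - 1 + 7) := by
  have h1 : 1 ≤ 2 ^ (k + 1) := Nat.one_le_two_pow
  have h2 : 2 ^ (k + 1) - 1 + 7 = 2 ^ (k + 1) + 6 := by omega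
  rw [h2, pow_add]
  have h3 : 2 ^ (k + 1) < 2 ^ 2 ^ (k + 1) := Nat.lt_two_pow_self
  have h4 : k + 1 < 2 ^ (k + 1) := Nat.lt_two_pow_self
  omega

theorem pf_GEO (h1 : T_KA) (h2 : T_KC) (h3 : T_KD) (h4 : T_KE) (h5 : T_KF) (h6 : T_KG) :
    T_GEO := by
  refine ⟨40, ?_⟩
  have hMM : ∀ i, 1 ≤ MM i ∧ MM i ≤ Nn i := by
    intro i
    obtain ⟨a, b, c, d, e⟩ := h4 i
    unfold MM
    omega
  refine ⟨?_, fun i => (hMM i).1, ?_, fun i j _ => (h2 i j).1, ?_, ?_, h5.1, h5.2.2, ?_, h6⟩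
  · intro i
    unfold Tt
    calc 2 = 2 ^ 1 := by norm_num
      _ ≤ 2 ^ (i + 8) := Nat.pow_le_pow_right (by norm_num) (by omega)
  · intro i
    unfold kk
    have hb : 1 ≤ bb i 0 := by
      unfold bb
      simp
    have hp : 1 ≤ 2 ^ Tt i := Nat.one_le_two_pow
    exact Nat.mul_pos hp (by omega)
  · intro i a b c d ha hb hc hd
    have hN := (hMM i).2
    exact h3 i a b c d (by omega) (by omega) (by omega) (by omega)
  · intro i
    refine le_trans ?_ (h5.2.1 i)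
    have hp : 1 ≤ 2 ^ (i + 7) := Nat.one_le_two_pow
    calc 2 = 2 ^ 1 := by norm_num
      _ ≤ 2 ^ 2 ^ (i + 7) := Nat.pow_le_pow_right (by norm_num) hp
  · intro k
    refine le_trans ?_ (h5.2.1 _)
    exact Nat.pow_le_pow_right (by norm_num) (geo_exp k)

end Pool.Agent.H89.ILV
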