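import Pool.Agent.H95.ILV.Targets

/-!
# MP_de9001_an, row L1L: the lower bound in `L1`
-/

set_option autoImplicit false

open MeasureTheory AddCircle Filter Topology Pool.Agent.H87.Synth Pool.Agent.H23.Synth
  Pool.Agent.H95.ILV

namespace Pool.Agent.H89.ILV

lemma cont_FW (n : ℕ) : Continuous (FW n) := by
  have h : Continuous fun x : Circ => ∑ a ∈ Finset.range n, (fourier (a : ℤ) x : ℂ) :=
    continuous_finsetSum _ fun a _ => (fourier (a : ℤ)).continuous
  unfold FW
  exact continuous_const.mul (h.norm.pow 2)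

lemma FW_nonneg (n : ℕ) (x : Circ) : 0 ≤ FW n x := by
  unfold FW
  positivity

lemma cont_ES {ι : Type} (s : Finset ι) (ν : ι → ℤ) (g : ι → ℂ) : Continuous (ES s ν g) := by
  unfold ES
  exact continuous_finsetSum _ fun a _ => continuous_const.mul (fourier (ν a)).continuous

lemma int_cont {f : Circ → ℝ} (hf : Continuous f) :
    Integrable f (haarAddCircle : Measure Circ) :=
  hf.integrable_of_hasCompactSupport (HasCompactSupport.of_compactSpace f)

theorem pf_L1L (h1 : T_L2E) (h2 : T_L4) : T_L1L := by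
  intro ι s ν g τ n hn hQ
  have hgap : ∀ a ∈ s, ∀ b ∈ s, a ≠ b → (n : ℤ) ≤ |ν a - ν b| := by
    intro a ha b hb hab
    by_contra hc
    push Not at hc
    have h3 := hQ.2 a ha a ha b hb a ha (by
      have e : ν a + ν a - ν b - ν a = ν a - ν b := by ring
      rw [e]
      exact hc)
    rcases h3 with h3 | h3 | h3
    · exact hab h3.1
    · exact hab h3.2
    · exact (hQ.1 a ha).2.1 h3.1.symm
  have e2 := h1 ι s ν g n hn hgap
  have e4 := h2 ι s ν g τ n hn hQ
  set A : ℝ := ∑ a ∈ s, ‖g a‖ ^ 2 with hA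
  set J : ℝ := ∫ x, FW n x * ‖ES s ν g x‖ ∂(haarAddCircle : Measure Circ) with hJ
  have hA0 : 0 ≤ A := Finset.sum_nonneg fun a _ => sq_nonneg _
  rcases hA0.eq_or_lt with h0 | h0
  · rw [← h0]
    positivity
  set l : ℝ := √(3 * A) with hl
  have hl2 : l ^ 2 = 3 * A := Real.sq_sqrt (by linarith)
  have hl0 : 0 ≤ l := Real.sqrt_nonneg _
  have hE := (cont_ES s ν g).norm
  have i1 : Integrable (fun x => FW n x * ‖ES s ν g x‖) (haarAddCircle : Measure Circ) :=
    int_cont ((cont_FW n).mul hE)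
  have i2 : Integrable (fun x => FW n x * ‖ES s ν g x‖ ^ 2) (haarAddCircle : Measure Circ) :=
    int_cont ((cont_FW n).mul (hE.pow 2))
  have i4 : Integrable (fun x => FW n x * ‖ES s ν g x‖ ^ 4) (haarAddCircle : Measure Circ) :=
    int_cont ((cont_FW n).mul (hE.pow 4))
  have hpt : ∀ x : Circ, 3 * l ^ 2 * (FW n x * ‖ES s ν g x‖ ^ 2) ≤
      2 * l ^ 3 * (FW n x * ‖ES s ν g x‖) + FW n x * ‖ES s ν g x‖ ^ 4 := by
    intro x
    have ht : 0 ≤ ‖ES s ν g x‖ := norm_nonneg _
    generalize ‖ES s ν g x‖ = t at ht ⊢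
    have h3 : 0 ≤ FW n x * (t * (t - l) ^ 2 * (t + 2 * l)) :=
      mul_nonneg (FW_nonneg n x) (by positivity)
    nlinarith
  have hint := integral_mono (i2.const_mul (3 * l ^ 2)) ((i1.const_mul (2 * l ^ 3)).add i4) hpt
  rw [integral_add' (i1.const_mul _) i4, integral_const_mul, integral_const_mul, e2] at hint
  have h5 : 3 * l ^ 2 * A ≤ 2 * l ^ 3 * J + 3 * A ^ 2 := hint.trans (by linarith)
  have h6 : A ≤ l * J := by
    have e1 : l ^ 3 = 3 * A * l := by
      calc l ^ 3 = l ^ 2 * l := by ring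
        _ = 3 * A * l := by rw [hl2]
    rw [e1, hl2] at h5
    have h7 : A * A ≤ A * (l * J) := by nlinarith
    exact le_of_mul_le_mul_left h7 h0
  have h8 : A ^ 2 ≤ 3 * A * J ^ 2 := by
    calc A ^ 2 ≤ (l * J) ^ 2 := pow_le_pow_left₀ hA0 h6 2
      _ = 3 * A * J ^ 2 := by rw [mul_pow, hl2]
  have h9 : A * A ≤ A * (3 * J ^ 2) := by nlinarith
  exact le_of_mul_le_mul_left h9 h0

end Pool.Agent.H89.ILV
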